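import Mathlib

/-!
# The assignment polytope with upper bounds, as a linear system
-/

set_option autoImplicit false

open Finset

namespace Pool.Agent.V11231.LPS

/-- The names of the inequalities of the system `system n *ᵥ y ≥ rhs x` in the unknowns `y i j`:
`low i j` is `y i j ≥ 0`, `cap i j` is `- y i j ≥ - x i j`, and the others say that the sums of the
rows and columns of `y` are at least one and at most one. -/
inductive Row (n : ℕ) where
  | low (i j : Fin n)
  | cap (i j : Fin n)
  | rowLo (i : Fin n)
  | rowHi (i : Fin n)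
  | colLo (j : Fin n)
  | colHi (j : Fin n)

/-- The matrix of the system; it depends on `n` only, and its entries are `0`, `1` and `-1`. -/
def system (n : ℕ) : Matrix (Row n) (Fin n × Fin n) ℝ := fun r e =>
  match r with
  | .low i j => if e = (i, j) then 1 else 0
  | .cap i j => if e = (i, j) then -1 else 0
  | .rowLo i => if e.1 = i then 1 else 0
  | .rowHi i => if e.1 = i then -1 else 0
  | .colLo j => if e.2 = j then 1 else 0
  | .colHi j => if e.2 = j then -1 else 0

/-- The right-hand side given by the bits `x`. -/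
def rhs {n : ℕ} (x : Fin n × Fin n → Bool) : Row n → ℝ
  | .low _ _ => 0
  | .cap i j => if x (i, j) = true then -1 else 0
  | .rowLo _ => 1
  | .rowHi _ => -1
  | .colLo _ => 1
  | .colHi _ => -1

/-- The system with the right-hand side given by `x` has a solution. -/
def Feasible {n : ℕ} (x : Fin n × Fin n → Bool) : Prop :=
  ∃ y : Fin n × Fin n → ℝ, ∀ r, rhs x r ≤ (system n).mulVec y r

variable {n : ℕ}

theorem sys_low (y : Fin n × Fin n → ℝ) (i j : Fin n) :
    (system n).mulVec y (.low i j) = y (i, j) := by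
  unfold Matrix.mulVec dotProduct
  change ∑ e : Fin n × Fin n, (if e = (i, j) then (1 : ℝ) else 0) * y e = y (i, j)
  simp

theorem sys_cap (y : Fin n × Fin n → ℝ) (i j : Fin n) :
    (system n).mulVec y (.cap i j) = - y (i, j) := by
  unfold Matrix.mulVec dotProduct
  change ∑ e : Fin n × Fin n, (if e = (i, j) then (-1 : ℝ) else 0) * y e = - y (i, j)
  simp

theorem sys_rowLo (y : Fin n × Fin n → ℝ) (i : Fin n) :
    (system n).mulVec y (.rowLo i) = ∑ j, y (i, j) := by
  unfold Matrix.mulVec dotProduct
  change ∑ e : Fin n × Fin n, (if e.1 = i then (1 : ℝ) else 0) * y e = ∑ j, y (i, j)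
  rw [Fintype.sum_prod_type]
  simp

theorem sys_rowHi (y : Fin n × Fin n → ℝ) (i : Fin n) :
    (system n).mulVec y (.rowHi i) = - ∑ j, y (i, j) := by
  unfold Matrix.mulVec dotProduct
  change ∑ e : Fin n × Fin n, (if e.1 = i then (-1 : ℝ) else 0) * y e = - ∑ j, y (i, j)
  rw [Fintype.sum_prod_type]
  simp

theorem sys_colLo (y : Fin n × Fin n → ℝ) (j : Fin n) :
    (system n).mulVec y (.colLo j) = ∑ i, y (i, j) := by
  unfold Matrix.mulVec dotProduct
  change ∑ e : Fin n × Fin n, (if e.2 = j then (1 : ℝ) else 0) * y e = ∑ i, y (i, j)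
  rw [Fintype.sum_prod_type]
  simp

theorem sys_colHi (y : Fin n × Fin n → ℝ) (j : Fin n) :
    (system n).mulVec y (.colHi j) = - ∑ i, y (i, j) := by
  unfold Matrix.mulVec dotProduct
  change ∑ e : Fin n × Fin n, (if e.2 = j then (-1 : ℝ) else 0) * y e = - ∑ i, y (i, j)
  rw [Fintype.sum_prod_type]
  simp

/-- The system in plain terms. -/
theorem feasible_iff (x : Fin n × Fin n → Bool) :
    Feasible x ↔ ∃ y : Fin n → Fin n → ℝ, (∀ i j, 0 ≤ y i j) ∧
      (∀ i j, y i j ≤ if x (i, j) = true then 1 else 0) ∧
      (∀ i, ∑ j, y i j = 1) ∧ (∀ j, ∑ i, y i j = 1) := by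
  constructor
  · rintro ⟨y, hy⟩
    refine ⟨fun i j => y (i, j), fun i j => ?_, fun i j => ?_, fun i => ?_, fun j => ?_⟩
    · have := hy (.low i j)
      rw [sys_low] at this
      exact this
    · have := hy (.cap i j)
      rw [sys_cap] at this
      change (if x (i, j) = true then (-1 : ℝ) else 0) ≤ _ at this
      split_ifs at this ⊢ with h
      · linarith
      · linarith
    · have h1 := hy (.rowLo i)
      have h2 := hy (.rowHi i)
      rw [sys_rowLo] at h1
      rw [sys_rowHi] at h2
      change (1 : ℝ) ≤ _ at h1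
      change (-1 : ℝ) ≤ _ at h2
      exact le_antisymm (by linarith) h1
    · have h1 := hy (.colLo j)
      have h2 := hy (.colHi j)
      rw [sys_colLo] at h1
      rw [sys_colHi] at h2
      change (1 : ℝ) ≤ _ at h1
      change (-1 : ℝ) ≤ _ at h2
      exact le_antisymm (by linarith) h1
  · rintro ⟨y, h0, h1, h2, h3⟩
    refine ⟨fun e => y e.1 e.2, ?_⟩
    rintro (⟨i, j⟩ | ⟨i, j⟩ | i | i | j | j)
    · rw [sys_low]
      exact h0 i j
    · rw [sys_cap]
      change (if x (i, j) = true then (-1 : ℝ) else 0) ≤ _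
      have := h1 i j
      split_ifs at this ⊢ with h
      · simp only; linarith
      · simp only; linarith
    · rw [sys_rowLo]
      exact (h2 i).ge
    · rw [sys_rowHi]
      change (-1 : ℝ) ≤ _
      simp only
      rw [h2 i]
    · rw [sys_colLo]
      exact (h3 j).ge
    · rw [sys_colHi]
      change (-1 : ℝ) ≤ _
      simp only
      rw [h3 j]

/-- A permutation with one-entries is a solution. -/
theorem feasible_of_perm {x : Fin n × Fin n → Bool} (F : Equiv.Perm (Fin n))
    (h : ∀ i, x (i, F i) = true) : Feasible x := by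
  classical
  rw [feasible_iff]
  refine ⟨fun i j => if F i = j then 1 else 0, fun i j => ?_, fun i j => ?_, fun i => ?_,
    fun j => ?_⟩
  · simp only; split_ifs <;> norm_num
  · simp only
    by_cases hij : F i = j
    · subst hij
      rw [if_pos rfl, if_pos (h i)]
    · rw [if_neg hij]
      split_ifs <;> norm_num
  · simp
  · have : ∀ i, (if F i = j then (1 : ℝ) else 0) = if i = F.symm j then 1 else 0 := by
      intro i
      congr 1
      rw [eq_iff_iff]
      constructor
      · rintro rfl; simp
      · rintro rfl; simp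
    simp only [this]
    simp

/-- Hall's condition. -/
theorem not_feasible_of_hall {x : Fin n × Fin n → Bool} (S T : Finset (Fin n))
    (h : ∀ i ∈ S, ∀ j, x (i, j) = true → j ∈ T) (hc : T.card < S.card) : ¬ Feasible x := by
  classical
  rw [feasible_iff]
  rintro ⟨y, h0, h1, h2, h3⟩
  have e1 : (S.card : ℝ) = ∑ i ∈ S, ∑ j, y i j := by
    rw [Finset.sum_congr rfl (fun i _ => h2 i)]
    simp
  have e2 : ∑ i ∈ S, ∑ j, y i j = ∑ i ∈ S, ∑ j ∈ T, y i j := by
    refine Finset.sum_congr rfl fun i hi => ?_
    symm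
    refine Finset.sum_subset (Finset.subset_univ T) fun j _ hj => ?_
    have h4 : ¬ x (i, j) = true := fun h' => hj (h i hi j h')
    have h5 := h1 i j
    rw [if_neg h4] at h5
    exact le_antisymm h5 (h0 i j)
  have e3 : ∑ i ∈ S, ∑ j ∈ T, y i j ≤ ∑ j ∈ T, ∑ i, y i j := by
    rw [Finset.sum_comm]
    refine Finset.sum_le_sum fun j _ => ?_
    exact Finset.sum_le_sum_of_subset_of_nonneg (Finset.subset_univ S) fun i _ _ => h0 i j
  have e4 : ∑ j ∈ T, ∑ i, y i j = (T.card : ℝ) := by
    rw [Finset.sum_congr rfl (fun j _ => h3 j)]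
    simp
  have e5 : (S.card : ℝ) ≤ T.card := by
    rw [e1, e2]
    exact e3.trans e4.le
  have e6 : S.card ≤ T.card := by exact_mod_cast e5
  omega

end Pool.Agent.V11231.LPS
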