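import Pool.Agent.W896.RK.Defs

/-!
# Renaming the inputs of a circuit
-/

set_option autoImplicit false

open Finset

namespace Pool.Agent.V11231.LPS

open Pool.Agent.W896.RK

variable {V V' : Type}

/-- Renaming the inputs. -/
def renGate {G : Type} (p : V → V') (σ : V → Bool) : Gate V G → Gate V' G
  | .lit v b => .lit (p v) (xor (σ v) b)
  | .and g h => .and g h
  | .any S => .any S

/-- Renaming the inputs: the input `v` becomes the input `p v`, negated if `σ v` is true. -/
def ren (U : Circ V) (p : V → V') (σ : V → Bool) : Circ V' where
  G := U.G
  gate g := renGate p σ (U.gate g)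
  out := U.out
  rk := U.rk
  rk_and := by
    intro g a b h
    apply U.rk_and
    cases hg : U.gate g with
    | lit v b' => rw [hg] at h; exact absurd h (by simp [renGate])
    | and a' b' =>
      rw [hg] at h
      have h' : Gate.and (V := V') a' b' = Gate.and a b := h
      injection h' with e1 e2
      rw [e1, e2]
    | any S => rw [hg] at h; exact absurd h (by simp [renGate])
  rk_any := by
    intro g S a h
    apply U.rk_any
    cases hg : U.gate g with
    | lit v b' => rw [hg] at h; exact absurd h (by simp [renGate])
    | and a' b' => rw [hg] at h; exact absurd h (by simp [renGate])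
    | any S' =>
      rw [hg] at h
      have h' : Gate.any (V := V') S' = Gate.any S := h
      injection h' with e1
      rw [e1]

theorem ren_val (U : Circ V) (p : V → V') (σ : V → Bool) (y : V' → Bool) (g : U.G) :
    (ren U p σ).Val y g ↔ U.Val (fun v => xor (σ v) (y (p v))) g := by
  constructor
  · intro h
    have key : ∀ g' : (ren U p σ).G, (ren U p σ).Val y g' →
        U.Val (fun v => xor (σ v) (y (p v))) g' := by
      intro g' h
      induction h with
      | @lit g v b e h =>
        have e' : renGate p σ (U.gate g) = Gate.lit v b := e
        cases hg : U.gate g with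
        | lit v' b' =>
          rw [hg] at e'
          have e'' : Gate.lit (G := U.G) (p v') (xor (σ v') b') = Gate.lit v b := e'
          injection e'' with e1 e2
          refine Circ.Val.lit hg ?_
          change xor (σ v') (y (p v')) = b'
          rw [e1, h, ← e2]
          cases σ v' <;> cases b' <;> rfl
        | and a' b' => rw [hg] at e'; exact absurd e' (by simp [renGate])
        | any S => rw [hg] at e'; exact absurd e' (by simp [renGate])
      | @and g a b e ha hb iha ihb =>
        have e' : renGate p σ (U.gate g) = Gate.and a b := e
        cases hg : U.gate g with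
        | lit v' b' => rw [hg] at e'; exact absurd e' (by simp [renGate])
        | and a' b' =>
          rw [hg] at e'
          have e'' : Gate.and (V := V') a' b' = Gate.and a b := e'
          injection e'' with e1 e2
          subst e1; subst e2
          exact Circ.Val.and hg iha ihb
        | any S => rw [hg] at e'; exact absurd e' (by simp [renGate])
      | @any g a S e ha h ih =>
        have e' : renGate p σ (U.gate g) = Gate.any S := e
        cases hg : U.gate g with
        | lit v' b' => rw [hg] at e'; exact absurd e' (by simp [renGate])
        | and a' b' => rw [hg] at e'; exact absurd e' (by simp [renGate])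
        | any S' =>
          rw [hg] at e'
          have e'' : Gate.any (V := V') S' = Gate.any S := e'
          injection e'' with e1
          subst e1
          exact Circ.Val.any hg ha ih
    exact key g h
  · intro h
    induction h with
    | @lit g v b e h =>
      refine Circ.Val.lit (v := p v) (b := xor (σ v) b) ?_ ?_
      · change renGate p σ (U.gate g) = _
        rw [e]; rfl
      · change y (p v) = xor (σ v) b
        rw [← h]
        cases σ v <;> cases y (p v) <;> rfl
    | @and g a b e ha hb iha ihb =>
      refine Circ.Val.and (a := a) (b := b) ?_ iha ihb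
      change renGate p σ (U.gate g) = _
      rw [e]; rfl
    | @any g a S e ha h ih =>
      refine Circ.Val.any (S := S) ?_ ha ih
      change renGate p σ (U.gate g) = _
      rw [e]; rfl

/-- The degrees after renaming. -/
theorem ren_deg [Fintype V] {J : Type} [Fintype J] (U : Circ V) (p : V → V') (σ : V → Bool)
    (q : J → V') (hq : Function.Injective q) (d : U.G → V → ℕ) (hd : IsDeg U id d)
    (S : Finset V) (hS : ∀ v j, p v = q j → v ∈ S) :
    ∃ d' : (ren U p σ).G → J → ℕ, IsDeg (ren U p σ) q d' ∧
      ∑ j, d' (ren U p σ).out j ≤ ∑ v ∈ S, d U.out v := by
  classical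
  refine ⟨fun g j => ∑ v ∈ univ.filter (fun v => p v = q j), d g v, ⟨?_, ?_, ?_⟩, ?_⟩
  · intro g v b e j hj
    have e' : renGate p σ (U.gate g) = Gate.lit v b := e
    cases hg : U.gate g with
    | lit v' b' =>
      rw [hg] at e'
      have e'' : Gate.lit (G := U.G) (p v') (xor (σ v') b') = Gate.lit v b := e'
      injection e'' with e1 e2
      have h1 : 1 ≤ d g v' := hd.1 g v' b' hg v' rfl
      refine h1.trans ?_
      exact single_le_sum (f := fun v => d g v) (fun _ _ => Nat.zero_le _)
        (mem_filter.2 ⟨mem_univ _, by rw [e1, hj]⟩)
    | and a' b' => rw [hg] at e'; exact absurd e' (by simp [renGate])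
    | any S => rw [hg] at e'; exact absurd e' (by simp [renGate])
  · intro g a b e j
    have e' : renGate p σ (U.gate g) = Gate.and a b := e
    cases hg : U.gate g with
    | lit v' b' => rw [hg] at e'; exact absurd e' (by simp [renGate])
    | and a' b' =>
      rw [hg] at e'
      have e'' : Gate.and (V := V') a' b' = Gate.and a b := e'
      injection e'' with e1 e2
      subst e1; subst e2
      change (∑ v ∈ univ.filter (fun v => p v = q j), d a' v) +
        (∑ v ∈ univ.filter (fun v => p v = q j), d b' v) ≤
        ∑ v ∈ univ.filter (fun v => p v = q j), d g v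
      rw [← sum_add_distrib]
      exact sum_le_sum fun v _ => hd.2.1 g a' b' hg v
    | any S => rw [hg] at e'; exact absurd e' (by simp [renGate])
  · intro g S a e ha j
    have e' : renGate p σ (U.gate g) = Gate.any S := e
    cases hg : U.gate g with
    | lit v' b' => rw [hg] at e'; exact absurd e' (by simp [renGate])
    | and a' b' => rw [hg] at e'; exact absurd e' (by simp [renGate])
    | any S' =>
      rw [hg] at e'
      have e'' : Gate.any (V := V') S' = Gate.any S := e'
      injection e'' with e1
      subst e1
      exact sum_le_sum fun v _ => hd.2.2 g S' a hg ha v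
  · change ∑ j, ∑ v ∈ univ.filter (fun v => p v = q j), d U.out v ≤ ∑ v ∈ S, d U.out v
    have e1 : ∀ j, ∑ v ∈ univ.filter (fun v => p v = q j), d U.out v =
        ∑ v ∈ S, if p v = q j then d U.out v else 0 := by
      intro j
      rw [← sum_filter]
      refine sum_congr ?_ fun _ _ => rfl
      ext v
      rw [mem_filter, mem_filter]
      constructor
      · rintro ⟨-, h⟩
        exact ⟨hS v j h, h⟩
      · rintro ⟨-, h⟩
        exact ⟨mem_univ _, h⟩
    simp only [e1]
    rw [sum_comm]
    refine sum_le_sum fun v _ => ?_
    by_cases hv : ∃ j, p v = q j
    · obtain ⟨j, hj⟩ := hv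
      rw [sum_eq_single j]
      · rw [if_pos hj]
      · intro j' _ hj'
        rw [if_neg]
        intro h
        exact hj' (hq (h.symm.trans hj))
      · intro h
        exact absurd (mem_univ j) h
    · push Not at hv
      rw [sum_eq_zero (fun j _ => if_neg (hv j))]
      exact Nat.zero_le _

end Pool.Agent.V11231.LPS
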