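import Pool.Agent.W896.FD.PM
import Pool.Agent.V11231.LPS.Defs
import Pool.Agent.V11231.LPS.Ren

/-!
# Linear feasibility and circuits of small formal degree
-/

set_option autoImplicit false
set_option maxHeartbeats 1000000

open Finset

namespace Pool.Agent.V11231.LPS

open Pool.Agent.W896.RK Pool.Agent.W896.HP Pool.Agent.W896.FD

variable {m s n : ℕ}

/-- The bit which is the bound of an unknown. -/
def slot (e : Fin m ⊕ Fin s ≃ Fin n) (v : Fin n × Fin n) : Sym2 (Fin m) ⊕ Bool :=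
  match e.symm v.1, e.symm v.2 with
  | .inl a, .inl b => .inl s(a, b)
  | .inr a, .inr b => .inr (decide (a = b))
  | _, _ => .inr false

/-- The bounds given by a graph. -/
noncomputable def gx (e : Fin m ⊕ Fin s ≃ Fin n) (G : SimpleGraph (Fin m)) :
    Fin n × Fin n → Bool := fun v => Sum.elim (bits G) id (slot e v)

theorem gx_ll (e : Fin m ⊕ Fin s ≃ Fin n) (G : SimpleGraph (Fin m)) (a b : Fin m) :
    gx e G (e (.inl a), e (.inl b)) = true ↔ G.Adj a b := by
  unfold gx slot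
  simp only [Equiv.symm_apply_apply, Sum.elim_inl]
  rw [bits_true]
  exact Iff.rfl

theorem gx_lr (e : Fin m ⊕ Fin s ≃ Fin n) (G : SimpleGraph (Fin m)) (a : Fin m) (b : Fin s) :
    gx e G (e (.inl a), e (.inr b)) = false := by
  unfold gx slot
  simp only [Equiv.symm_apply_apply, Sum.elim_inr, id]

theorem gx_rl (e : Fin m ⊕ Fin s ≃ Fin n) (G : SimpleGraph (Fin m)) (a : Fin s) (b : Fin m) :
    gx e G (e (.inr a), e (.inl b)) = false := by
  unfold gx slot
  simp only [Equiv.symm_apply_apply, Sum.elim_inr, id]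

theorem gx_rr (e : Fin m ⊕ Fin s ≃ Fin n) (G : SimpleGraph (Fin m)) (a b : Fin s) :
    gx e G (e (.inr a), e (.inr b)) = decide (a = b) := by
  unfold gx slot
  simp only [Equiv.symm_apply_apply, Sum.elim_inr, id]

/-- Feasibility does not depend on the order of the unknowns. -/
theorem feasible_perm {x x' : Fin n × Fin n → Bool} (σ : Equiv.Perm (Fin n))
    (h : ∀ i j, x' (σ i, σ j) = x (i, j)) (hx : Feasible x) : Feasible x' := by
  rw [feasible_iff] at hx ⊢
  obtain ⟨y, h0, h1, h2, h3⟩ := hx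
  refine ⟨fun i j => y (σ.symm i) (σ.symm j), fun i j => h0 _ _, fun i j => ?_, fun i => ?_,
    fun j => ?_⟩
  · have := h1 (σ.symm i) (σ.symm j)
    rw [← h] at this
    simpa using this
  · rw [Equiv.sum_comp σ.symm (fun j => y (σ.symm i) j)]
    exact h2 _
  · rw [Equiv.sum_comp σ.symm (fun i => y i (σ.symm j))]
    exact h3 _

theorem feasible_map (e : Fin m ⊕ Fin s ≃ Fin n) (G : SimpleGraph (Fin m))
    (ρ : Equiv.Perm (Fin m)) (h : Feasible (gx e G)) : Feasible (gx e (G.map ρ)) := by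
  refine feasible_perm ((e.symm.trans (Equiv.sumCongr ρ (Equiv.refl _))).trans e) ?_ h
  intro i j
  obtain ⟨a, rfl⟩ := e.surjective i
  obtain ⟨b, rfl⟩ := e.surjective j
  simp only [Equiv.trans_apply, Equiv.symm_apply_apply]
  rcases a with a | a <;> rcases b with b | b
  · simp only [Equiv.sumCongr_apply, Sum.map_inl]
    rw [Bool.eq_iff_iff, gx_ll, gx_ll]
    exact SimpleGraph.map_adj_apply (f := ρ.toEmbedding)
  · simp only [Equiv.sumCongr_apply, Sum.map_inl, Sum.map_inr, Equiv.refl_apply]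
    rw [gx_lr, gx_lr]
  · simp only [Equiv.sumCongr_apply, Sum.map_inl, Sum.map_inr, Equiv.refl_apply]
    rw [gx_rl, gx_rl]
  · simp only [Equiv.sumCongr_apply, Sum.map_inr, Equiv.refl_apply]
    rw [gx_rr, gx_rr]

theorem feasible_pmap (e : Fin m ⊕ Fin s ≃ Fin n) {G : SimpleGraph (Fin m)} (h : PMap G) :
    Feasible (gx e G) := by
  obtain ⟨f, h1, h2⟩ := h
  have hF : ∀ w : Fin m ⊕ Fin s, Sum.map f id (Sum.map f id w) = w := by
    rintro (a | a)
    · simp only [Sum.map_inl, h2]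
    · simp only [Sum.map_inr, id]
  refine feasible_of_perm ((e.symm.trans ⟨Sum.map f id, Sum.map f id, hF, hF⟩).trans e) fun i => ?_
  obtain ⟨a, rfl⟩ := e.surjective i
  simp only [Equiv.trans_apply, Equiv.symm_apply_apply]
  rcases a with a | a
  · change gx e G (e (.inl a), e (.inl (f a))) = true
    rw [gx_ll]
    exact h1 a
  · change gx e G (e (.inr a), e (.inr a)) = true
    rw [gx_rr]
    exact decide_eq_true rfl

theorem not_feasible_cherry (e : Fin m ⊕ Fin s ≃ Fin n) {G : SimpleGraph (Fin m)}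
    (h : Cherry G) : ¬ Feasible (gx e G) := by
  classical
  obtain ⟨u, v, w, huv, hu, hv⟩ := h
  refine not_feasible_of_hall {e (.inl u), e (.inl v)} {e (.inl w)} ?_ ?_
  · have key : ∀ u', (∀ x, G.Adj u' x ↔ x = w) → ∀ j, gx e G (e (.inl u'), j) = true →
        j ∈ ({e (.inl w)} : Finset (Fin n)) := by
      intro u' hu' j hj
      obtain ⟨b, rfl⟩ := e.surjective j
      rcases b with b | b
      · rw [gx_ll, hu'] at hj
        rw [hj]
        exact mem_singleton_self _
      · rw [gx_lr] at hj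
        exact absurd hj (by decide)
    intro i hi j hj
    rw [mem_insert, mem_singleton] at hi
    rcases hi with rfl | rfl
    · exact key u hu j hj
    · exact key v hv j hj
  · rw [card_singleton, card_pair]
    · norm_num
    · intro h
      exact huv (Sum.inl_injective (e.injective h))

theorem lp_even (k : ℕ) (hm : Even m) (e : Fin m ⊕ Fin s ≃ Fin n) (R : Type) [Fintype R]
    [Nonempty R] (U : R → Circ (Fin n × Fin n))
    (hU : ∀ r x, (U r).Val x (U r).out → Feasible x)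
    (hc : ∀ x, Feasible x →
      Nat.card R ≤ 2 ^ (m / 2 ^ (60 * (k + 1))) * Nat.card {r // (U r).Val x (U r).out})
    (hd : ∀ r, ∃ d : (U r).G → Fin n × Fin n → ℕ, IsDeg (U r) id d ∧
      ∑ v, d (U r).out v ≤ k * m ^ 2) :
    ∃ r, m ≤ 2 ^ (60 * (k + 1)) * (Nat.log 2 (Fintype.card (U r).G) + 1) := by
  classical
  obtain ⟨b, hb⟩ : ∃ b, b = m / 6 := ⟨_, rfl⟩
  obtain ⟨r, hr⟩ : ∃ r, r = m % 6 := ⟨_, rfl⟩
  have hre : Even r := by
    rw [Nat.even_iff] at hm ⊢
    omega
  have hcard : Fintype.card (WV b r) = Fintype.card (Fin m) := by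
    rw [Fintype.card_sum, Fintype.card_prod, Fintype.card_fin, Fintype.card_fin,
      Fintype.card_fin, Fintype.card_fin]
    omega
  obtain ⟨φ⟩ : Nonempty (WV b r ≃ Fin m) := ⟨Fintype.equivOfCardEq hcard⟩
  have hp : Function.Injective (Sum.inl : Sym2 (Fin m) → Sym2 (Fin m) ⊕ Bool) :=
    Sum.inl_injective
  have hfill : ∀ G : SimpleGraph (Fin m),
      fill (Sum.inl : Sym2 (Fin m) → Sym2 (Fin m) ⊕ Bool) (Sum.elim (fun _ => false) id)
        (bits G) = Sum.elim (bits G) id := by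
    intro G
    funext v
    rcases v with v | v
    · exact fill_apply hp _ _ v
    · rw [fill_other _ _ (fun i => by simp)]
      rfl
  have hval : ∀ r' (G : SimpleGraph (Fin m)),
      (ren (U r') (slot e) fun _ => false).Val (fill (Sum.inl : Sym2 (Fin m) → Sym2 (Fin m) ⊕ Bool)
        (Sum.elim (fun _ => false) id) (bits G)) (ren (U r') (slot e) fun _ => false).out ↔
      (U r').Val (gx e G) (U r').out := by
    intro r' G
    rw [hfill]
    have h1 := ren_val (U r') (slot e) (fun _ => false) (Sum.elim (bits G) id) (U r').out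
    simp only [Bool.false_xor] at h1
    exact h1
  refine final_graph k (b := b) (by omega) φ (cc b r) (base b r) hp
    (Sum.elim (fun _ => false) id) (fun G => Feasible (gx e G)) ?_ ?_ ?_ R
    (fun r' => ren (U r') (slot e) fun _ => false) ?_ ?_ ?_
  · intro G ρ h
    exact feasible_map e G ρ h
  · intro z
    exact feasible_pmap e ((pmap_state hre z).iso (SimpleGraph.Iso.map φ _))
  · intro z z' h
    exact not_feasible_cherry e ((cherry_mix (r := r) h).iso (SimpleGraph.Iso.map φ _))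
  · intro r' G hG
    exact hU r' _ ((hval r' G).1 hG)
  · intro G hG
    simp only [hval]
    exact hc _ hG
  · intro r'
    obtain ⟨d, hd1, hd2⟩ := hd r'
    obtain ⟨d', h1, h2⟩ := ren_deg (U r') (slot e) (fun _ => false)
      (Sum.inl : Sym2 (Fin m) → _) hp d hd1 univ (fun _ _ _ => mem_univ _)
    exact ⟨d', h1, h2.trans hd2⟩

/-- **Linear feasibility needs superlinear formal degree.** -/
theorem lp_degree (k n : ℕ) (R : Type) [Fintype R] [Nonempty R]
    (U : R → Circ (Fin n × Fin n))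
    (hU : ∀ r x, (U r).Val x (U r).out → Feasible x)
    (hc : ∀ x, Feasible x →
      Nat.card R ≤ 2 ^ (n / 2 ^ (60 * (k + 3))) * Nat.card {r // (U r).Val x (U r).out})
    (hd : ∀ r, ∃ d : (U r).G → Fin n × Fin n → ℕ, IsDeg (U r) id d ∧
      ∑ v, d (U r).out v ≤ k * n ^ 2) :
    ∃ r, n ≤ 2 ^ (60 * (k + 3)) * (Nat.log 2 (Fintype.card (U r).G) + 1) := by
  obtain ⟨D, hD⟩ : ∃ D, D = 2 ^ (60 * (k + 2)) := ⟨_, rfl⟩
  obtain ⟨E, hE⟩ : ∃ E : ℕ, E = 2 ^ 60 := ⟨_, rfl⟩
  have hE4 : 4 ≤ E := by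
    rw [hE]; norm_num
  have hD' : 2 ^ (60 * (k + 3)) = E * D := by
    have e1 : 60 * (k + 3) = 60 + 60 * (k + 2) := by ring
    rw [hD, hE, e1, pow_add]
  have hDk : 4 * k + 8 ≤ D := by
    rw [hD]
    have h1 : k + 2 < 2 ^ (k + 2) := Nat.lt_two_pow_self
    have h3 : (2 : ℕ) ^ (k + 4) ≤ 2 ^ (60 * (k + 2)) :=
      Nat.pow_le_pow_right (by norm_num) (by omega)
    have h4 : (2 : ℕ) ^ (k + 4) = 4 * 2 ^ (k + 2) := by
      rw [show k + 4 = (k + 2) + 2 from rfl, pow_add]
      ring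
    omega
  have hDE : 4 * D ≤ E * D := Nat.mul_le_mul_right _ hE4
  rcases Nat.lt_or_ge n (E * D) with hn | hn
  · obtain ⟨r⟩ := (inferInstance : Nonempty R)
    refine ⟨r, ?_⟩
    rw [hD']
    exact hn.le.trans (Nat.le_mul_of_pos_right _ (by omega))
  obtain ⟨m, hm⟩ : ∃ m, m = 2 * (n / 2) := ⟨_, rfl⟩
  obtain ⟨s, hs⟩ : ∃ s, s = n % 2 := ⟨_, rfl⟩
  have hms : m + s = n := by omega
  subst hms
  rw [hD'] at hc
  have hk : k * (m + s) ^ 2 ≤ (k + 1) * m ^ 2 := by
    have h1 : m + s ≤ m + 1 := by omega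
    have h2 : 4 * k + 8 ≤ m := by omega
    have h3 : (m + s) ^ 2 ≤ (m + 1) ^ 2 := Nat.pow_le_pow_left h1 2
    have h4 : k * (m + s) ^ 2 ≤ k * (m + 1) ^ 2 := Nat.mul_le_mul_left _ h3
    refine h4.trans ?_
    nlinarith
  obtain ⟨r, hr⟩ := lp_even (k + 1) (m := m) (s := s) (by rw [hm]; exact even_two_mul _)
    finSumFinEquiv R U hU (by
      intro x hx
      refine (hc x hx).trans (Nat.mul_le_mul_right _ (Nat.pow_le_pow_right (by norm_num) ?_))
      rw [show k + 1 + 1 = k + 2 from rfl, ← hD]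
      rw [Nat.le_div_iff_mul_le (by omega)]
      obtain ⟨y, hy⟩ : ∃ y, y = (m + s) / (E * D) * D := ⟨_, rfl⟩
      have h5 := Nat.div_mul_le_self (m + s) (E * D)
      have h6 : 4 * y ≤ m + s := by
        calc 4 * y ≤ E * y := Nat.mul_le_mul_right _ hE4
          _ = (m + s) / (E * D) * (E * D) := by rw [hy]; ring
          _ ≤ _ := h5
      rw [← hy]
      omega) (by
      intro r
      obtain ⟨d, h1, h2⟩ := hd r
      exact ⟨d, h1, h2.trans hk⟩)
  refine ⟨r, ?_⟩
  rw [show k + 1 + 1 = k + 2 from rfl, ← hD] at hr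
  rw [hD']
  obtain ⟨ℓ, hℓ⟩ : ∃ ℓ, ℓ = D * (Nat.log 2 (Fintype.card (U r).G) + 1) := ⟨_, rfl⟩
  have h7 : E * D * (Nat.log 2 (Fintype.card (U r).G) + 1) = E * ℓ := by rw [hℓ]; ring
  have h8 : 4 * ℓ ≤ E * ℓ := Nat.mul_le_mul_right _ hE4
  rw [h7]
  rw [← hℓ] at hr
  omega

end Pool.Agent.V11231.LPS
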