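import Pool.Agent.W896.HB.PMStack
import Pool.Agent.V11231.LPS.Defs

/-!
# Linear feasibility on machines with a stack
-/

set_option autoImplicit false
set_option maxHeartbeats 1000000

open Finset

namespace Pool.Agent.V11231.LPS

open Equiv Pool.Agent.H541R2 Pool.Agent.W896.HP Pool.Agent.W896.FD Pool.Agent.W896.HB

variable {L n : ℕ}

open Classical in
/-- The bounds given by an open braid. -/
noncomputable def mx (ψ : BV L ⊕ Bool ↪ Fin n) (g : Fin L → Perm (Fin 5)) :
    Fin n × Fin n → Bool :=
  fun v => decide (((opn g).map ψ).Adj v.1 v.2 ∨ (v.1 = v.2 ∧ v.1 ∉ Set.range ψ))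

theorem mx_iff (ψ : BV L ⊕ Bool ↪ Fin n) (g : Fin L → Perm (Fin 5)) (x y : Fin n) :
    mx ψ g (x, y) = true ↔
      ((opn g).map ψ).Adj x y ∨ (x = y ∧ x ∉ Set.range ψ) := by
  classical
  unfold mx
  exact decide_eq_true_iff

theorem mx_fill (ψ : BV L ⊕ Bool ↪ Fin n) (g g' : Fin L → Perm (Fin 5)) :
    fill (cr (emb ψ)) (mx ψ g') (fun i => xor false (crossBit g i)) = mx ψ g := by
  classical
  have hp : Function.Injective (cr (emb ψ)) := cr_inj (emb ψ)
  funext v
  by_cases hv : ∃ i, cr (emb ψ) i = v
  · obtain ⟨i, rfl⟩ := hv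
    rw [fill_apply hp, Bool.false_xor]
    unfold mx crossBit
    refine decide_eq_decide.2 ?_
    rw [← opn_cr ψ g i]
    constructor
    · exact Or.inl
    · rintro (h | ⟨-, h⟩)
      · exact h
      · exfalso
        apply h
        obtain ⟨t, x, x', o⟩ := i
        cases o with
        | false => exact ⟨.inl (t, false, x), rfl⟩
        | true => exact ⟨.inl (t, true, x'), rfl⟩
  · push Not at hv
    rw [fill_other _ _ hv]
    obtain ⟨x, y⟩ := v
    unfold mx
    refine decide_eq_decide.2 ?_
    exact or_congr ⟨opn_other ψ g' g x y hv, opn_other ψ g g' x y hv⟩ Iff.rfl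

theorem feasible_mx (hL : 1 ≤ L) (ψ : BV L ⊕ Bool ↪ Fin n) {g : Fin L → Perm (Fin 5)}
    (h : (List.ofFn g).prod = 1) : Feasible (mx ψ g) := by
  classical
  obtain ⟨f, hf1, hf2⟩ := pmap_opn hL h
  obtain ⟨F, hF⟩ : ∃ F : Fin n → Fin n, F = fun x =>
      if hx : x ∈ Set.range ψ then ψ (f hx.choose) else x := ⟨_, rfl⟩
  have hFr : ∀ u, F (ψ u) = ψ (f u) := by
    intro u
    have hx : ψ u ∈ Set.range ψ := ⟨u, rfl⟩
    rw [hF]
    simp only [hx, dif_pos]
    congr 2
    exact ψ.injective hx.choose_spec
  have hFc : ∀ x, x ∉ Set.range ψ → F x = x := by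
    intro x hx
    rw [hF]
    simp only [hx, dif_neg, not_false_eq_true]
  have hFF : ∀ x, F (F x) = x := by
    intro x
    by_cases hx : x ∈ Set.range ψ
    · obtain ⟨u, rfl⟩ := hx
      rw [hFr, hFr, hf2]
    · rw [hFc x hx, hFc x hx]
  refine feasible_of_perm ⟨F, F, hFF, hFF⟩ fun x => ?_
  change mx ψ g (x, F x) = true
  rw [mx_iff]
  by_cases hx : x ∈ Set.range ψ
  · obtain ⟨u, rfl⟩ := hx
    left
    rw [hFr]
    exact SimpleGraph.map_adj_apply.2 (hf1 u)
  · right
    exact ⟨(hFc x hx).symm, hx⟩

/-- The colour classes of the open braid. -/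
def cls : BV L ⊕ Bool → Bool
  | .inl u => u.2.1
  | .inr o => !o

theorem cls_EO (g : Fin L → Perm (Fin 5)) (u v : BV L ⊕ Bool) (h : EO g u v) :
    cls v = !(cls u) := by
  rcases u with u | o <;> rcases v with v | o'
  · rcases h with h | h
    · change v.2.1 = !u.2.1
      rw [h.1, h.2.1]; rfl
    · change v.2.1 = !u.2.1
      rw [h.1, h.2.1]; rfl
  · change (!o') = !u.2.1
    rw [h.1, h.2.1]
  · change v.2.1 = !(!o)
    rw [h.1, h.2.1]; rfl
  · exact h.elim

theorem not_feasible_mx (ψ : BV L ⊕ Bool ↪ Fin n) {g : Fin L → Perm (Fin 5)}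
    (h : (List.ofFn g).prod = tau) : ¬ Feasible (mx ψ g) := by
  classical
  have hpL : pre g L = tau := by rw [pre_last, h]
  obtain ⟨Y, hY⟩ : ∃ Y : Set (BV L ⊕ Bool), Y = {u | match u with
    | .inl u' => lev g u' u'.2.2 = 0
    | .inr o => o = false} := ⟨_, rfl⟩
  have hYl : ∀ u, (Sum.inl u : BV L ⊕ Bool) ∈ Y ↔ lev g u u.2.2 = 0 := by
    intro u; rw [hY]; rfl
  have hYr : ∀ o, (Sum.inr o : BV L ⊕ Bool) ∈ Y ↔ o = false := by
    intro o; rw [hY]; rfl
  have hclosed : ∀ u v : BV L ⊕ Bool, EO g u v → (u ∈ Y ↔ v ∈ Y) := by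
    rintro (u | j) (v | j') huv
    · rw [hYl, hYl]
      obtain ⟨t, s, a⟩ := u
      obtain ⟨t', s', a'⟩ := v
      rcases huv with ⟨e1, e2, e3, e4⟩ | ⟨e1, e2, e3, e4⟩
      · simp only at e1 e2 e3 e4
        subst e1; subst e2; subst e3
        unfold lev
        simp only [Bool.false_eq_true, if_false, if_true, add_zero]
        rw [pre_succ, Perm.mul_apply, e4]
      · simp only at e1 e2 e3 e4
        subst e1; subst e2; subst e4
        unfold lev
        simp only [Bool.false_eq_true, if_false, if_true, add_zero]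
        rw [e3]
    · obtain ⟨e1, e2, e3, e4⟩ := huv
      rw [hYl, hYr, e1]
      unfold lev
      rw [if_pos e2, e3, hpL, e4]
      exact ⟨fun h => absurd h (by decide), fun h => absurd h (by decide)⟩
    · obtain ⟨e1, e2, e3, e4⟩ := huv
      rw [hYl, hYr, e1]
      unfold lev
      rw [e2, e3]
      simp only [Bool.false_eq_true, if_false, add_zero]
      rw [pre_zero, e4]
      simp
    · exact huv.elim
  obtain ⟨P, hP⟩ : ∃ P : Option (Fin L) → BV L ⊕ Bool, P = fun o => match o with
      | none => .inr false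
      | some t => .inl (t, true, (lev g (t, true, 0))⁻¹ 0) := ⟨_, rfl⟩
  have hPn : P none = .inr false := by rw [hP]
  have hPs : ∀ t, P (some t) = .inl (t, true, (lev g (t, true, 0))⁻¹ 0) := by
    intro t; rw [hP]
  have hPi : Function.Injective P := by
    intro o o' ho
    rcases o with _ | t <;> rcases o' with _ | t'
    · rfl
    · rw [hPn, hPs] at ho
      exact absurd ho (by simp)
    · rw [hPn, hPs] at ho
      exact absurd ho (by simp)
    · rw [hPs, hPs] at ho
      simp only [Sum.inl.injEq, Prod.mk.injEq] at ho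
      rw [ho.1]
  refine not_feasible_of_hall ((univ.image P).map ψ)
    ((univ.image (fun t : Fin L =>
      (.inl (t, false, (lev g (t, false, 0))⁻¹ 0) : BV L ⊕ Bool))).map ψ) ?_ ?_
  · intro x hx y hxy
    rw [mem_map] at hx
    obtain ⟨u, hu, rfl⟩ := hx
    rw [mem_image] at hu
    obtain ⟨o, -, ho⟩ := hu
    have huY : u ∈ Y ∧ cls u = true := by
      rcases o with _ | t
      · rw [← ho, hPn]
        exact ⟨(hYr _).2 rfl, rfl⟩
      · rw [← ho, hPs]
        refine ⟨(hYl _).2 ?_, rfl⟩
        change lev g (t, true, 0) ((lev g (t, true, 0))⁻¹ 0) = 0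
        simp
    rw [mx_iff] at hxy
    rcases hxy with hxy | ⟨-, hxy⟩
    · rw [SimpleGraph.map_adj] at hxy
      obtain ⟨u', v, huv, h2, h3⟩ := hxy
      have h4 := ψ.injective h2
      subst h4
      have hv : v ∈ Y ∧ cls v = false := by
        rcases huv with h1 | h1
        · refine ⟨(hclosed _ _ h1).1 huY.1, ?_⟩
          rw [cls_EO g _ _ h1, huY.2]; rfl
        · refine ⟨(hclosed _ _ h1).2 huY.1, ?_⟩
          have := cls_EO g _ _ h1
          rw [huY.2] at this
          rcases hcv : cls v with _ | _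
          · rfl
          · rw [hcv] at this
            exact absurd this (by decide)
      rw [mem_map]
      refine ⟨v, ?_, h3⟩
      rw [mem_image]
      rcases v with ⟨t, s, a⟩ | o'
      · refine ⟨t, mem_univ _, ?_⟩
        have h5 := (hYl _).1 hv.1
        have h6 : s = false := hv.2
        subst h6
        change lev g (t, false, 0) a = 0 at h5
        have h7 : (lev g (t, false, 0))⁻¹ 0 = a := by
          rw [Perm.inv_eq_iff_eq]
          exact h5.symm
        rw [h7]
      · have h5 := (hYr _).1 hv.1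
        have h6 : (!o') = false := hv.2
        rw [h5] at h6
        exact absurd h6 (by decide)
    · exact absurd ⟨u, rfl⟩ hxy
  · rw [card_map, card_map, card_image_of_injective _ hPi, card_univ, Fintype.card_option,
      Fintype.card_fin]
    have := card_image_le (s := (univ : Finset (Fin L))) (f := fun t : Fin L =>
      (.inl (t, false, (lev g (t, false, 0))⁻¹ 0) : BV L ⊕ Bool))
    rw [card_univ, Fintype.card_fin] at this
    omega

/-- **Linear feasibility.** -/
theorem lp_stack (k : ℕ) : ∃ D : ℕ, 0 < D ∧ ∀ (n T : ℕ)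
    (Q : (Fin n × Fin n → Bool) → Prop),
    ((Q = fun x => Feasible x) ∨ (Q = fun x => ¬ Feasible x)) →
    ∀ (R : Type) [Fintype R] [Nonempty R] (U : R → Prog (Fin k) (Fin n × Fin n)),
      (∀ r x l, (U r).Acc x l → Q x) →
      (∀ x, Q x → Nat.card R ≤ 2 ^ (n / D) *
        Nat.card {r // ∃ l, (U r).Acc x l ∧ travel cellAt l ≤ T}) →
      ∃ r, n ^ 3 ≤ D * ((T + n ^ 2) * (Nat.log 2 (Fintype.card (U r).State) + 1)) := by
  classical
  obtain ⟨c, D, hc, hD, hcore⟩ := mat_core k
  refine ⟨D, hD, ?_⟩
  intro n T Q hQ R _ _ U hU hl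
  rcases Nat.lt_or_ge n D with hMD | hMD
  · obtain ⟨r⟩ := (inferInstance : Nonempty R)
    refine ⟨r, ?_⟩
    calc n ^ 3 = n * n ^ 2 := by ring
      _ ≤ D * n ^ 2 := Nat.mul_le_mul_right _ hMD.le
      _ ≤ D * ((T + n ^ 2) * (Nat.log 2 (Fintype.card (U r).State) + 1)) := by
          apply Nat.mul_le_mul_left
          calc n ^ 2 ≤ (T + n ^ 2) * 1 := by omega
            _ ≤ _ := Nat.mul_le_mul_left _ (by omega)
  obtain ⟨N, e, hN2, hNn, he, hmain⟩ := hcore n hMD
  obtain ⟨ψ, hψ⟩ : ∃ ψ : BV (N * c) ⊕ Bool ↪ Fin n, emb ψ = e := by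
    refine ⟨⟨Sum.elim e (fun o => if o = true then ⟨n - 1, by omega⟩ else ⟨0, by omega⟩), ?_⟩,
      ?_⟩
    · rintro (u | o) (v | o') h
      · exact congrArg _ (e.injective h)
      · exfalso
        have h1 := congrArg Fin.val h
        have h2 := he u
        cases o' with
        | false =>
          change (e u).val = 0 at h1
          omega
        | true =>
          change (e u).val = n - 1 at h1
          omega
      · exfalso
        have h1 := congrArg Fin.val h
        have h2 := he v
        cases o with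
        | false =>
          change 0 = (e v).val at h1
          omega
        | true =>
          change n - 1 = (e v).val at h1
          omega
      · have h1 := congrArg Fin.val h
        cases o <;> cases o'
        · rfl
        · change 0 = n - 1 at h1
          omega
        · change n - 1 = 0 at h1
          omega
        · rfl
    · ext u; rfl
  subst hψ
  have hiff : ∀ g : Fin (N * c) → Perm (Fin 5),
      ((List.ofFn g).prod = 1 ∨ (List.ofFn g).prod = tau) →
      (Feasible (mx ψ g) ↔ (List.ofFn g).prod = 1) := by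
    intro g hg
    constructor
    · intro hH
      rcases hg with h | h
      · exact h
      · exact absurd hH (not_feasible_mx ψ h)
    · exact feasible_mx (by omega) ψ
  refine hmain (fun g => mx ψ g) false (fun g g' => mx_fill ψ g g') T Q ?_ R U ?_ ?_
  · rcases hQ with rfl | rfl
    · exact Or.inl hiff
    · exact Or.inr (fun g hg => not_congr (hiff g hg))
  · intro r g l h
    exact hU r _ l h
  · intro g h
    exact hl _ h

end Pool.Agent.V11231.LPS
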